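import Pool.Agent.H224R2.Mah.Defs

/-!
# Symmetric Mahler conjecture, task A4: the inverse `h : P → D` of `U`
-/

namespace Pool.Agent.H224R2.Mah

open MeasureTheory Set Filter Topology
open scoped ENNReal RealInnerProductSpace

/-- A4 with the statements of A1 and A2 as hypotheses. -/
theorem A4_inverse_of (h1 : ∀ ζ : ℂ, ‖ζ‖ < 1 → HasDerivAt U (U' ζ) ζ)
    (h2 : ∀ ζ : ℂ, ‖ζ‖ < 1 → 0 < (U' ζ).re) (h3 : InjOn U (Metric.ball 0 1)) :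
    IsOpen PP ∧ (∀ u ∈ PP, ‖hh u‖ < 1 ∧ U (hh u) = u ∧
      HasDerivAt hh (U' (hh u))⁻¹ u) ∧ (∀ ζ : ℂ, ‖ζ‖ < 1 → U ζ ∈ PP ∧ hh (U ζ) = ζ) ∧
      ∀ r : ℝ, r < 1 → IsCompact {u | u ∈ PP ∧ ‖hh u‖ ≤ r} := by
  have hne : ∀ ζ : ℂ, ‖ζ‖ < 1 → U' ζ ≠ 0 := by
    intro ζ hζ h0
    have := h2 ζ hζ
    rw [h0] at this
    simp at this
  have hmem : ∀ ζ : ℂ, ζ ∈ Metric.ball (0 : ℂ) 1 ↔ ‖ζ‖ < 1 := fun ζ => by
    rw [Metric.mem_ball, dist_zero_right]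
  have hdiff : DifferentiableOn ℂ U (Metric.ball 0 1) := fun ζ hζ =>
    (h1 ζ ((hmem ζ).1 hζ)).differentiableAt.differentiableWithinAt
  have hstrict : ∀ ζ : ℂ, ‖ζ‖ < 1 → HasStrictDerivAt U (U' ζ) ζ := by
    intro ζ hζ
    have han : AnalyticAt ℂ U ζ := hdiff.analyticAt (Metric.isOpen_ball.mem_nhds ((hmem ζ).2 hζ))
    have h := han.hasStrictDerivAt
    rwa [(h1 ζ hζ).deriv] at h
  have hmap : ∀ ζ : ℂ, ‖ζ‖ < 1 → map U (𝓝 ζ) = 𝓝 (U ζ) := fun ζ hζ =>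
    (hstrict ζ hζ).map_nhds_eq (hne ζ hζ)
  have hleft : ∀ ζ : ℂ, ‖ζ‖ < 1 → hh (U ζ) = ζ := fun ζ hζ =>
    h3.leftInvOn_invFunOn ((hmem ζ).2 hζ)
  have hopen : IsOpen PP := by
    rw [isOpen_iff_mem_nhds]
    rintro u ⟨ζ, hζ, rfl⟩
    rw [← hmap ζ ((hmem ζ).1 hζ)]
    exact image_mem_map (Metric.isOpen_ball.mem_nhds hζ)
  refine ⟨hopen, ?_, fun ζ hζ => ⟨⟨ζ, (hmem ζ).2 hζ, rfl⟩, hleft ζ hζ⟩, ?_⟩
  · rintro u ⟨ζ, hζ, rfl⟩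
    have hζ' : ‖ζ‖ < 1 := (hmem ζ).1 hζ
    have hhζ : hh (U ζ) = ζ := hleft ζ hζ'
    rw [hhζ]
    refine ⟨hζ', rfl, ?_⟩
    have hcont : ContinuousAt hh (U ζ) := by
      unfold ContinuousAt
      rw [hhζ, ← hmap ζ hζ', tendsto_map'_iff]
      refine Tendsto.congr' ?_ tendsto_id
      filter_upwards [Metric.isOpen_ball.mem_nhds hζ] with w hw
      exact (hleft w ((hmem w).1 hw)).symm
    refine HasDerivAt.of_local_left_inverse hcont (by rw [hhζ]; exact h1 ζ hζ') (hne ζ hζ') ?_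
    filter_upwards [hopen.mem_nhds ⟨ζ, hζ, rfl⟩] with w hw
    obtain ⟨ξ, hξ, rfl⟩ := hw
    rw [hleft ξ ((hmem ξ).1 hξ)]
  · intro r hr
    have hset : {u | u ∈ PP ∧ ‖hh u‖ ≤ r} = U '' Metric.closedBall 0 r := by
      ext u
      constructor
      · rintro ⟨⟨ζ, hζ, rfl⟩, hu⟩
        rw [hleft ζ ((hmem ζ).1 hζ)] at hu
        exact ⟨ζ, by rw [Metric.mem_closedBall, dist_zero_right]; exact hu, rfl⟩
      · rintro ⟨ζ, hζ, rfl⟩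
        rw [Metric.mem_closedBall, dist_zero_right] at hζ
        have hζ1 : ‖ζ‖ < 1 := lt_of_le_of_lt hζ hr
        refine ⟨⟨ζ, (hmem ζ).2 hζ1, rfl⟩, ?_⟩
        rw [hleft ζ hζ1]
        exact hζ
    rw [hset]
    apply (isCompact_closedBall (0 : ℂ) r).image_of_continuousOn
    intro ζ hζ
    rw [Metric.mem_closedBall, dist_zero_right] at hζ
    exact (h1 ζ (lt_of_le_of_lt hζ hr)).continuousAt.continuousWithinAt

end Pool.Agent.H224R2.Mah
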